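import Pool.Agent.Y669.TA.Real
set_option autoImplicit false

/-! The rings of integers of all fields of totally real numbers: the integers are defined by one
formula, and the theories are not arithmetical, uniformly. Stronger form of `AllUndecidable`. -/

namespace Pool.Agent.Results.MP_bd783f_lc.UniformlyNotArithmetical

open FirstOrder FirstOrder.Language NumberField
open Pool.Agent.Helper967.TR Pool.Agent.Y669.TA

/-- The formula `ζ` (with one free variable and without parameters) defines `ℤ` in the ring `R`. -/
def DefinesInt (R : Type) [CommRing R] (ζ : Language.ring.Formula (Fin 1)) : Prop :=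
  letI := (FirstOrder.Ring.compatibleRingOfRing R).toStructure
  ∀ x : R, ζ.Realize (fun _ => x) ↔ ∃ m : ℤ, x = m

/-- The theory of the ring `R`: the set of the Goedel numbers of the sentences that are true in
`R`. -/
def Theory (R : Type) [CommRing R] (n : ℕ) : Prop :=
  ∃ φ : Language.ring.Sentence, code φ = n ∧ TrueIn R φ

/-- The common theory of the rings of integers of the fields `K ∈ S`. -/
def CommonTheory (S : Set (IntermediateField ℚ Qtr)) (n : ℕ) : Prop :=
  ∀ K ∈ S, Theory (𝓞 K) n

/-- One computable function reduces `A` to the theories of all the rings `𝓞 K`. -/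
def UniformlyReducible (A : ℕ → Prop) : Prop :=
  ∃ f : ℕ → ℕ, Computable f ∧ ∀ (K : IntermediateField ℚ Qtr) (n : ℕ), A n ↔ Theory (𝓞 K) (f n)

/-- (1) One first-order formula without parameters defines `ℤ` in the rings of integers `𝓞 K` of
all fields `K` with `ℚ ⊆ K ⊆ ℚ^tr`.
(2) Every arithmetical set is many-one reducible to the theories of all these rings, by one
computable function.
(3) For every nonempty set `S` of such fields the set of the sentences that are true in `𝓞 K` for
all `K ∈ S` is not arithmetical.
(4) In particular the theory of `𝓞 K` is neither arithmetical nor decidable, for every `K`. -/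
theorem result :
    (∃ ζ : Language.ring.Formula (Fin 1), ∀ K : IntermediateField ℚ Qtr, DefinesInt (𝓞 K) ζ) ∧
    (∀ A : ℕ → Prop, Arithmetical A → UniformlyReducible A) ∧
    (∀ S : Set (IntermediateField ℚ Qtr), S.Nonempty → ¬ Arithmetical (CommonTheory S)) ∧
    ∀ K : IntermediateField ℚ Qtr, ¬ Arithmetical (Theory (𝓞 K)) ∧ ¬ DecidableTheory (𝓞 K) := by
  have key : ∀ A : ℕ → Prop, Arithmetical A → UniformlyReducible A := by
    intro A hA
    obtain ⟨σ, hσ, h⟩ := Real.reducible hA
    refine ⟨fun n => code (σ n), hσ, fun K n => ?_⟩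
    constructor
    · intro hn
      exact ⟨σ n, rfl, (h K n).2 hn⟩
    · rintro ⟨ψ, hψ, hh⟩
      rw [code_injective _ _ hψ] at hh
      exact (h K n).1 hh
  have key2 : ∀ K : IntermediateField ℚ Qtr, ¬ Arithmetical (Theory (𝓞 K)) := fun K =>
    not_arithmetical fun A hA => by
      obtain ⟨f, hf, h⟩ := key A hA
      exact ⟨f, hf, h K⟩
  refine ⟨?_, key, ?_, fun K => ⟨key2 K, fun hK => key2 K (.comp _ hK)⟩⟩
  · obtain ⟨ζ, hζ⟩ := Real.int_def
    exact ⟨ζ, fun K x => hζ K x⟩
  · rintro S ⟨L, hL⟩
    refine not_arithmetical fun A hA => ?_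
    obtain ⟨f, hf, h⟩ := key A hA
    refine ⟨f, hf, fun n => ?_⟩
    constructor
    · intro hn K _
      exact (h K n).1 hn
    · intro hn
      exact (h L n).2 (hn L hL)

end Pool.Agent.Results.MP_bd783f_lc.UniformlyNotArithmetical
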